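import Mathlib
import Pool.Agent.R590.KlDefs

set_option autoImplicit false

namespace Pool.Agent.Results.MP_5c1789_lc.AllContinuousImages

open Cardinal Topology
open Pool.Agent.R590.Kl

/-- A nonempty set of at most `2^ℵ₁` functions `ω₂ → ω₂` is a continuous image of the generalized
Baire space. Hence, if `2^ℵ₂ = 2^ℵ₁`, then the set of branches of every `ℵ₂`-Kurepa tree is a
continuous image of the generalized Baire space. -/
theorem result :
    (∀ A : Set (W → W), A.Nonempty → #A ≤ 2 ^ (ℵ_ 1) → IsContImage A) ∧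
    ((2 : Cardinal.{0}) ^ (ℵ_ 2) = 2 ^ (ℵ_ 1) →
      ∀ T : ∀ α : W, Set (Set.Iio α → W), IsKurepa T → IsContImage (Body T)) := by
  have key : ∀ A : Set (W → W), A.Nonempty → #A ≤ 2 ^ (ℵ_ 1) → IsContImage A := by
    intro A hA hcard
    obtain ⟨a0, ha0⟩ := hA
    -- a point with exactly `ℵ₁` predecessors
    have hle : (ℵ_ 1 : Cardinal.{0}) ≤ ℵ_ 2 := Cardinal.aleph_le_aleph.mpr one_le_two
    obtain ⟨i⟩ : Nonempty ((ℵ_ 1).ord.ToType ↪ W) := (Cardinal.le_def _ _).mp (by
      rw [Cardinal.mk_ord_toType, mk_W]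
      exact hle)
    obtain ⟨α, hα⟩ := bddW (M := (ℵ_ 1).ord.ToType) (Cardinal.mk_ord_toType _).le i
    have h1 : (ℵ_ 1 : Cardinal.{0}) ≤ #(Set.Iio α) := by
      rw [← Cardinal.mk_ord_toType (ℵ_ 1)]
      exact Cardinal.mk_le_of_injective (f := fun x => (⟨i x, hα x⟩ : Set.Iio α))
        (fun x y h => i.injective (congrArg Subtype.val h))
    have h2 : (2 : Cardinal.{0}) ^ (ℵ_ 1) ≤ #(Set.Iio α → W) := by
      rw [← Cardinal.power_def, mk_W]
      refine (Cardinal.power_le_power_right ?_).trans (Cardinal.power_le_power_left ?_ h1)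
      · exact (Cardinal.ofNat_lt_aleph0 (n := 2)).le.trans (Cardinal.aleph0_le_aleph 2)
      · exact (Cardinal.aleph0_pos.trans_le (Cardinal.aleph0_le_aleph 2)).ne'
    obtain ⟨g⟩ := (Cardinal.le_def _ _).mp (hcard.trans h2)
    haveI : Nonempty A := ⟨⟨a0, ha0⟩⟩
    let s : (Set.Iio α → W) → A := Function.invFun g
    have hs : Function.Surjective s := Function.invFun_surjective g.injective
    refine ⟨fun z => (s (seg z α)).1, ?_, ?_⟩
    · rw [continuous_iff]
      intro z β
      refine ⟨α, fun z' hz' i _ => ?_⟩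
      have : seg z' α = seg z α := funext fun j => hz' j.1 j.2
      rw [this]
    · ext y
      constructor
      · rintro ⟨z, rfl⟩
        exact (s (seg z α)).2
      · intro hy
        obtain ⟨σ, hσ⟩ := hs ⟨y, hy⟩
        classical
        refine ⟨fun ξ => if h : ξ < α then σ ⟨ξ, h⟩ else ξ, ?_⟩
        have : seg (fun ξ => if h : ξ < α then σ ⟨ξ, h⟩ else ξ) α = σ := by
          funext j
          have hj : j.1 < α := j.2
          simp only [seg, hj, dif_pos]
        simp only [this, hσ]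
  refine ⟨key, fun h T hT => key _ ?_ ?_⟩
  · have h1 : #(Body T) ≠ 0 := by
      intro h0
      have h2 := hT.2.2
      rw [h0] at h2
      exact absurd h2 (not_lt.mpr zero_le)
    rw [Cardinal.mk_ne_zero_iff] at h1
    obtain ⟨x⟩ := h1
    exact ⟨x.1, x.2⟩
  · rw [← h]
    refine (Cardinal.mk_set_le _).trans ?_
    rw [← Cardinal.power_def, mk_W]
    exact (Cardinal.power_self_eq (Cardinal.aleph0_le_aleph 2)).le

end Pool.Agent.Results.MP_5c1789_lc.AllContinuousImages
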